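import Pool.Agent.H430R2.PermCubes.Defs

set_option autoImplicit false

/-!
# Three orthogonal permutation cubes of order six

The value of each cube at `(x, y, z)` is the digit number `36x + 6y + z` in base six of a fixed
number; the inverse of the joint map is a list of digits in base `216`.
-/

namespace Pool.Agent.Q114.CubeSix

open Pool.Agent.H430R2.PermCubes Function

def N0 : ℕ := 971446449002527015934077316983487642802355992691044087532094750338003574063337518271055085371949240941412186773679846224820905577555317385087789044152211755004233452665

def N1 : ℕ := 818796980082216316119762679104162692470556452519383665047561211699063046573060402971069542507677729490821779241113626602157059204531564986754675587422312280970240227665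

def N2 : ℕ := 914527326965466117595171062079767111218445135737127925657820080568096747158510575136307950810589821531441327292953106066004013150771284748534772753365563177435018283915

def M : ℕ := 1395226369286477252949366660001021402110812651808523535995114478645044549817007395312840224492812713622262194205259179917356903375720144696694781089748932675043088991096905087669351575846401220981153269874903642348444364722580759218769023977384450195872636366333164595565441548820388324769417303312293057353630310458561569516589453429983084513110756708337824340898243787706210004366902895702771614741023141262310766730472168117391463251738172721043743089203330161340308749856637039001585607222655715058595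

def dig (N x y z : ℕ) : ℕ := N / 6 ^ (36 * x + 6 * y + z) % 6

def lineOK (N : ℕ) : Bool :=
  (List.range 6).all fun a => (List.range 6).all fun b => (List.range 6).all fun s =>
    (List.range 6).all fun t => s == t ||
      (dig N a b s != dig N a b t && dig N a s b != dig N a t b && dig N s a b != dig N t a b)

def jointOK : Bool :=
  (List.range 6).all fun a => (List.range 6).all fun b => (List.range 6).all fun c =>
    M / 216 ^ (36 * dig N0 a b c + 6 * dig N1 a b c + dig N2 a b c) % 216 == 36 * a + 6 * b + c

theorem line0 : lineOK N0 = true := by decide +kernel
theorem line1 : lineOK N1 = true := by decide +kernel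
theorem line2 : lineOK N2 = true := by decide +kernel
theorem joint : jointOK = true := by decide +kernel

/-- the cube with the digits of `N` -/
def cube (N : ℕ) (x : Fin 3 → Fin 6) : Fin 6 :=
  ⟨dig N (x 0) (x 1) (x 2), Nat.mod_lt _ (by norm_num)⟩

theorem lineOK_apply {N : ℕ} (h : lineOK N = true) {a b s t : ℕ} (ha : a < 6) (hb : b < 6)
    (hs : s < 6) (ht : t < 6) (hst : s ≠ t) :
    dig N a b s ≠ dig N a b t ∧ dig N a s b ≠ dig N a t b ∧ dig N s a b ≠ dig N t a b := by
  unfold lineOK at h
  simp only [List.all_eq_true, List.mem_range] at h
  have := h a ha b hb s hs t ht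
  simp only [Bool.or_eq_true, beq_iff_eq, Bool.and_eq_true, bne_iff_ne] at this
  rcases this with h1 | ⟨⟨h1, h2⟩, h3⟩
  · exact absurd h1 hst
  · exact ⟨h1, h2, h3⟩

theorem cube_perm {N : ℕ} (h : lineOK N = true) : IsPermutationCube 3 6 (cube N) := by
  intro i x
  rw [← Finite.injective_iff_bijective]
  intro s t hst
  by_contra hne
  have hne' : (s : ℕ) ≠ t := fun h => hne (Fin.ext h)
  have hst' := congrArg Fin.val hst
  fin_cases i
  · have := lineOK_apply h (x 1).2 (x 2).2 s.2 t.2 hne'
    simp only [cube, Fin.zero_eta, update_self] at hst'
    rw [update_of_ne (by decide), update_of_ne (by decide), update_of_ne (by decide),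
      update_of_ne (by decide)] at hst'
    exact this.2.2 hst'
  · have := lineOK_apply h (x 0).2 (x 2).2 s.2 t.2 hne'
    simp only [cube, Fin.mk_one, update_self] at hst'
    rw [update_of_ne (by decide), update_of_ne (by decide), update_of_ne (by decide),
      update_of_ne (by decide)] at hst'
    exact this.2.1 hst'
  · have := lineOK_apply h (x 0).2 (x 1).2 s.2 t.2 hne'
    simp only [cube, Fin.reduceFinMk, update_self] at hst'
    rw [update_of_ne (by decide), update_of_ne (by decide), update_of_ne (by decide),
      update_of_ne (by decide)] at hst'
    exact this.1 hst'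

theorem joint_inj : Injective fun x : Fin 3 → Fin 6 => (cube N0 x, cube N1 x, cube N2 x) := by
  intro x y hxy
  have hj := joint
  unfold jointOK at hj
  simp only [List.all_eq_true, List.mem_range, beq_iff_eq] at hj
  simp only [Prod.mk.injEq] at hxy
  obtain ⟨h0, h1, h2⟩ := hxy
  have h0' : dig N0 (x 0) (x 1) (x 2) = dig N0 (y 0) (y 1) (y 2) := congrArg Fin.val h0
  have h1' : dig N1 (x 0) (x 1) (x 2) = dig N1 (y 0) (y 1) (y 2) := congrArg Fin.val h1
  have h2' : dig N2 (x 0) (x 1) (x 2) = dig N2 (y 0) (y 1) (y 2) := congrArg Fin.val h2
  have hx := hj (x 0) (x 0).2 (x 1) (x 1).2 (x 2) (x 2).2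
  have hy := hj (y 0) (y 0).2 (y 1) (y 1).2 (y 2) (y 2).2
  rw [h0', h1', h2', hy] at hx
  have a0 := (x 0).2
  have a1 := (x 1).2
  have a2 := (x 2).2
  have b0 := (y 0).2
  have b1 := (y 1).2
  have b2 := (y 2).2
  funext i
  apply Fin.ext
  fin_cases i
  · simp only [Fin.zero_eta]; omega
  · simp only [Fin.mk_one]; omega
  · simp only [Fin.reduceFinMk]; omega

/-- three orthogonal permutation cubes of order six -/
theorem exists_three :
    ∃ C : Fin 3 → (Fin 3 → Fin 6) → Fin 6, IsVariationalSet 3 6 3 C := by
  refine ⟨![cube N0, cube N1, cube N2], ?_, ?_⟩
  · intro i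
    fin_cases i
    · exact cube_perm line0
    · exact cube_perm line1
    · exact cube_perm line2
  · intro e he
    rw [← Finite.injective_iff_bijective]
    intro x y hxy
    have hsurj : Surjective e := Finite.injective_iff_surjective.mp he
    have hall : ∀ j : Fin 3, ![cube N0, cube N1, cube N2] j x = ![cube N0, cube N1, cube N2] j y := by
      intro j
      obtain ⟨i, rfl⟩ := hsurj j
      exact congrFun hxy i
    exact joint_inj (Prod.ext (hall 0) (Prod.ext (hall 1) (hall 2)))

end Pool.Agent.Q114.CubeSix
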