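import Pool.Agent.H430R2.PermCubes.Upper
import Pool.Agent.H430R2.PermCubes.Lower
import Pool.Agent.H430R2.PermCubes.Two
import Pool.Agent.TH302.Tarry.Upper
import Pool.Agent.TH7.Cyc.Main
import Pool.Agent.Q114.CubeSix

set_option autoImplicit false

/-!
# For which `m`, `n` are there `m` orthogonal `m`-dimensional permutation cubes of order `n`?
-/

namespace Pool.Agent.Q114.CubeExist

open Pool.Agent.H430R2.PermCubes Function

theorem upd1 {n : ℕ} (a b c : Fin n) : update (![a, b] : Fin 2 → Fin n) 1 c = ![a, c] := by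
  funext i
  fin_cases i <;> simp

theorem upd0 {n : ℕ} (a b c : Fin n) : update (![a, b] : Fin 2 → Fin n) 0 c = ![c, b] := by
  funext i
  fin_cases i <;> simp

/-- no two orthogonal latin squares of order six -/
theorem no_two_six (C : Fin 2 → (Fin 2 → Fin 6) → Fin 6) : ¬ IsVariationalSet 2 6 2 C := by
  rintro ⟨h1, h2⟩
  refine Pool.Agent.TH302.Tarry.tarry (fun i j => C 0 ![i, j]) (fun i j => C 1 ![i, j])
    ?_ ?_ ?_ ?_ ?_
  · intro i s t hst
    have := (h1 0 1 ![i, 0]).1
    apply this
    simpa only [upd1] using hst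
  · intro c s t hst
    have := (h1 0 0 ![0, c]).1
    apply this
    simpa only [upd0] using hst
  · intro i s t hst
    have := (h1 1 1 ![i, 0]).1
    apply this
    simpa only [upd1] using hst
  · intro c s t hst
    have := (h1 1 0 ![0, c]).1
    apply this
    simpa only [upd0] using hst
  · intro i c i' c' ha hb
    have h := (h2 id injective_id).1
    have e : (![i, c] : Fin 2 → Fin 6) = ![i', c'] := by
      apply h
      funext k
      fin_cases k
      · exact ha
      · exact hb
    exact ⟨congrFun e 0, congrFun e 1⟩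

/-- two orthogonal latin squares of every order except two and six -/
theorem exists_two {n : ℕ} (h0 : n ≠ 0) (h2 : n ≠ 2) (h6 : n ≠ 6) :
    ∃ C : Fin 2 → (Fin 2 → Fin n) → Fin n, IsVariationalSet 2 n 2 C := by
  obtain ⟨A, B, hA1, hA2, hB1, hB2, hAB⟩ := Pool.Agent.H430R2.Mols.euler_ops h0 h2 h6
  refine ⟨![fun x => A (x 0) (x 1), fun x => B (x 0) (x 1)], ?_, ?_⟩
  · intro i
    fin_cases i
    · intro j x
      fin_cases j
      · have : (fun t => (![fun x => A (x 0) (x 1), fun x => B (x 0) (x 1)] :
            Fin 2 → (Fin 2 → Fin n) → Fin n) 0 (update x 0 t)) = fun t => A t (x 1) := by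
          funext t
          simp
        exact this ▸ hA2 (x 1)
      · have : (fun t => (![fun x => A (x 0) (x 1), fun x => B (x 0) (x 1)] :
            Fin 2 → (Fin 2 → Fin n) → Fin n) 0 (update x 1 t)) = fun t => A (x 0) t := by
          funext t
          simp
        exact this ▸ hA1 (x 0)
    · intro j x
      fin_cases j
      · have : (fun t => (![fun x => A (x 0) (x 1), fun x => B (x 0) (x 1)] :
            Fin 2 → (Fin 2 → Fin n) → Fin n) 1 (update x 0 t)) = fun t => B t (x 1) := by
          funext t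
          simp
        exact this ▸ hB2 (x 1)
      · have : (fun t => (![fun x => A (x 0) (x 1), fun x => B (x 0) (x 1)] :
            Fin 2 → (Fin 2 → Fin n) → Fin n) 1 (update x 1 t)) = fun t => B (x 0) t := by
          funext t
          simp
        exact this ▸ hB1 (x 0)
  · intro e he
    rw [← Finite.injective_iff_bijective]
    intro x y hxy
    have hsurj : Surjective e := Finite.injective_iff_surjective.mp he
    have hall : ∀ j : Fin 2, (![fun x => A (x 0) (x 1), fun x => B (x 0) (x 1)] :
        Fin 2 → (Fin 2 → Fin n) → Fin n) j x = (![fun x => A (x 0) (x 1),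
        fun x => B (x 0) (x 1)] : Fin 2 → (Fin 2 → Fin n) → Fin n) j y := by
      intro j
      obtain ⟨i, rfl⟩ := hsurj j
      exact congrFun hxy i
    have := @hAB (x 0, x 1) (y 0, y 1) (Prod.ext (hall 0) (hall 1))
    simp only [Prod.mk.injEq] at this
    funext i
    fin_cases i
    · exact this.1
    · exact this.2

/-- a subfamily of a variational set -/
theorem sub {m n k l : ℕ} (hkl : k ≤ l)
    (h : ∃ C : Fin l → (Fin m → Fin n) → Fin n, IsVariationalSet m n l C) :
    ∃ C : Fin k → (Fin m → Fin n) → Fin n, IsVariationalSet m n k C := by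
  obtain ⟨C, h1, h2⟩ := h
  refine ⟨fun i => C (Fin.castLE hkl i), fun i => h1 _, fun e he => ?_⟩
  exact h2 (fun i => Fin.castLE hkl (e i)) ((Fin.castLE_injective hkl).comp he)

/-- order six, every dimension at least three -/
theorem exists_six {m : ℕ} (hm : 3 ≤ m) :
    ∃ C : Fin m → (Fin m → Fin 6) → Fin 6, IsVariationalSet m 6 m C := by
  rcases Nat.eq_or_lt_of_le hm with h | h
  · subst h
    exact CubeSix.exists_three
  · rcases Nat.even_or_odd m with he | ho
    · obtain ⟨C, hC⟩ := Pool.Agent.TH7.Cyc.exists_cyc_even h he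
      exact ⟨C, hC.1⟩
    · have h5 : 5 ≤ m := by
        rcases ho with ⟨k, rfl⟩
        omega
      obtain ⟨C, hC⟩ := Pool.Agent.TH7.Cyc.exists_cyc_odd h5 ho
      exact sub (Nat.le_succ m) ⟨C, hC.1⟩

theorem main (m n : ℕ) (hm : 2 ≤ m) (hn : 2 ≤ n) :
    (∃ C : Fin m → (Fin m → Fin n) → Fin n, IsVariationalSet m n m C) ↔
      n ≠ 2 ∧ ¬ (m = 2 ∧ n = 6) := by
  constructor
  · rintro ⟨C, hC⟩
    refine ⟨?_, ?_⟩
    · rintro rfl
      have := two_le hC hm
      omega
    · rintro ⟨rfl, rfl⟩
      exact no_two_six C hC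
  · rintro ⟨h2, h26⟩
    rcases Nat.eq_or_lt_of_le hm with h | h
    · subst h
      exact exists_two (by omega) h2 (fun h => h26 ⟨rfl, h⟩)
    · by_cases h6 : n = 6
      · subst h6
        exact exists_six h
      · exact sub (Nat.le_succ m) (exists_succ h (by omega) h2 h6)

/-- in dimension three and order six the maximum is three or four -/
theorem three_six : IsPi 3 6 3 ∨ IsPi 3 6 4 := by
  have hup : ∀ k : ℕ, ∀ C : Fin k → (Fin 3 → Fin 6) → Fin 6, IsVariationalSet 3 6 k C → k ≤ 4 :=
    fun k C hC => Pool.Agent.TH302.Tarry.le_of_array hC.2 (by norm_num)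
  by_cases h : ∃ C : Fin 4 → (Fin 3 → Fin 6) → Fin 6, IsVariationalSet 3 6 4 C
  · exact Or.inr ⟨h, fun k ⟨C, hC⟩ => hup k C hC⟩
  · refine Or.inl ⟨CubeSix.exists_three, fun k ⟨C, hC⟩ => ?_⟩
    by_contra hk
    exact h (sub (by omega) ⟨C, hC⟩)

end Pool.Agent.Q114.CubeExist
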