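import Mathlib

/-!
# Kernel-checkable search for paths and cycles of given length in graphs on `Fin n`

`Q114.ext adj k x y vis` decides whether there is a path with exactly `k` edges from `x` to `y`
whose vertices other than `x` avoid the list `vis`.  `Q114.cycle_iff` and the lemmas around it
translate this to `SimpleGraph.cycleGraph (k + 2) ⊑ G`.
-/

namespace Q114

open SimpleGraph

/-- Search for a path with `k` edges from `x` to `y` avoiding `vis` (except for `x`). -/
def ext {n : ℕ} (adj : Fin n → Fin n → Bool) : ℕ → Fin n → Fin n → List (Fin n) → Bool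
  | 0, x, y, _ => decide (x = y)
  | k + 1, x, y, vis => (List.finRange n).any fun z =>
      adj x z && (!(vis.elem z) && ext adj k z y (z :: vis))

/-- A path with `k` edges, as a map from the natural numbers. -/
structure IsPathFn {V : Type*} (A : V → V → Prop) (k : ℕ) (x y : V) (p : ℕ → V) : Prop where
  /-- start -/
  start : p 0 = x
  /-- end -/
  stop : p k = y
  /-- adjacency -/
  adj : ∀ i, i < k → A (p i) (p (i + 1))
  /-- injectivity -/
  inj : ∀ i j, i ≤ k → j ≤ k → p i = p j → i = j

lemma ext_complete {n : ℕ} (adj : Fin n → Fin n → Bool) (k : ℕ) :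
    ∀ (x y : Fin n) (vis : List (Fin n)) (p : ℕ → Fin n),
      IsPathFn (fun a b => adj a b = true) k x y p → (∀ i, 1 ≤ i → i ≤ k → p i ∉ vis) →
      ext adj k x y vis = true := by
  induction k with
  | zero =>
    intro x y vis p hp _
    simp only [ext, decide_eq_true_eq]
    rw [← hp.start, ← hp.stop]
  | succ k ih =>
    intro x y vis p hp hvis
    simp only [ext, List.any_eq_true, Bool.and_eq_true, Bool.not_eq_true']
    refine ⟨p 1, List.mem_finRange _, ?_, ?_, ?_⟩
    · have := hp.adj 0 (by omega)
      rw [hp.start] at this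
      exact this
    · have := hvis 1 le_rfl (by omega)
      rw [← Bool.not_eq_true]
      rwa [List.elem_iff]
    · apply ih (p 1) y (p 1 :: vis) (fun i => p (i + 1))
      · refine ⟨rfl, hp.stop, fun i hi => hp.adj (i + 1) (by omega), ?_⟩
        intro i j hi hj hij
        have := hp.inj (i + 1) (j + 1) (by omega) (by omega) hij
        omega
      · intro i hi hik
        rw [List.mem_cons, not_or]
        refine ⟨?_, hvis (i + 1) (by omega) (by omega)⟩
        intro h
        have := hp.inj (i + 1) 1 (by omega) (by omega) h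
        omega

lemma ext_sound {n : ℕ} (adj : Fin n → Fin n → Bool) (k : ℕ) :
    ∀ (x y : Fin n) (vis : List (Fin n)), x ∈ vis → ext adj k x y vis = true →
      ∃ p : ℕ → Fin n, IsPathFn (fun a b => adj a b = true) k x y p ∧
        ∀ i, 1 ≤ i → i ≤ k → p i ∉ vis := by
  induction k with
  | zero =>
    intro x y vis _ h
    simp only [ext, decide_eq_true_eq] at h
    refine ⟨fun _ => x, ⟨rfl, h, fun i hi => absurd hi (by omega), ?_⟩, ?_⟩
    · intro i j hi hj _; omega
    · intro i h1 h2; omega
  | succ k ih =>
    intro x y vis hx h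
    simp only [ext, List.any_eq_true, Bool.and_eq_true, Bool.not_eq_true'] at h
    obtain ⟨z, _, hxz, hz, hext⟩ := h
    have hz' : z ∉ vis := by
      rw [← Bool.not_eq_true] at hz
      rwa [List.elem_iff] at hz
    obtain ⟨p, hp, hvis⟩ := ih z y (z :: vis) (List.mem_cons_self) hext
    have hpn : ∀ i, i ≤ k → p i ∉ vis := by
      intro i hi
      by_cases h0 : i = 0
      · rw [h0, hp.start]; exact hz'
      · have := hvis i (by omega) hi
        rw [List.mem_cons, not_or] at this
        exact this.2
    refine ⟨fun i => if i = 0 then x else p (i - 1), ⟨by simp, ?_, ?_, ?_⟩, ?_⟩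
    · simp only [Nat.add_eq_zero_iff, one_ne_zero, and_false, if_false, Nat.add_sub_cancel]
      exact hp.stop
    · intro i hi
      by_cases h0 : i = 0
      · subst h0
        simp [hp.start, hxz]
      · have := hp.adj (i - 1) (by omega)
        rw [show i - 1 + 1 = i by omega] at this
        simp only [h0, if_false, Nat.add_eq_zero_iff, one_ne_zero, and_false,
          Nat.add_sub_cancel]
        exact this
    · intro i j hi hj hij
      by_cases h0 : i = 0 <;> by_cases h1 : j = 0
      · omega
      · simp only [h0, h1, if_true, if_false] at hij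
        exact absurd (hij ▸ hx) (hpn (j - 1) (by omega))
      · simp only [h0, h1, if_true, if_false] at hij
        exact absurd (hij ▸ hx) (hpn (i - 1) (by omega))
      · simp only [h0, h1, if_false] at hij
        have := hp.inj (i - 1) (j - 1) (by omega) (by omega) hij
        omega
    · intro i h1 h2
      have h0 : i ≠ 0 := by omega
      simp only [h0, if_false]
      exact hpn (i - 1) (by omega)

/-- A closed path gives a copy of a cycle. -/
lemma cycle_of_path {V : Type*} {G : SimpleGraph V} {k : ℕ} {x y : V} {p : ℕ → V}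
    (hp : IsPathFn G.Adj (k + 1) x y p) (hyx : G.Adj y x) : cycleGraph (k + 2) ⊑ G := by
  let f : Fin (k + 2) → V := fun i => p i.1
  have hf : Function.Injective f := by
    intro i j hij
    have hi := i.2
    have hj := j.2
    exact Fin.ext (hp.inj i.1 j.1 (by omega) (by omega) hij)
  have hadj : ∀ i : Fin (k + 2), G.Adj (f i) (f (i + 1)) := by
    intro i
    by_cases hi : i = Fin.last (k + 1)
    · subst hi
      rw [Fin.last_add_one]
      show G.Adj (p (k + 1)) (p 0)
      rw [hp.start, hp.stop]
      exact hyx
    · have hlt : i.1 < k + 1 := by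
        have := i.2
        have h2 : i.1 ≠ k + 1 := fun h => hi (Fin.ext h)
        omega
      have hv : (i + 1).1 = i.1 + 1 := Fin.val_add_one_of_lt (by
        rw [Fin.lt_def]; exact hlt)
      show G.Adj (p i.1) (p (i + 1).1)
      rw [hv]
      exact hp.adj i.1 hlt
  refine ⟨⟨⟨f, ?_⟩, hf⟩⟩
  intro a b hab
  rw [cycleGraph_adj] at hab
  rcases hab with h1 | h1
  · have : a = b + 1 := by rw [← h1]; simp
    rw [this]; exact (hadj b).symm
  · have : b = a + 1 := by rw [← h1]; simp
    rw [this]; exact hadj a

/-- A copy of a cycle gives a closed path. -/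
lemma path_of_cycle {V : Type*} {G : SimpleGraph V} {k : ℕ} (h : cycleGraph (k + 2) ⊑ G) :
    ∃ (x y : V) (p : ℕ → V), IsPathFn G.Adj (k + 1) x y p ∧ G.Adj y x := by
  obtain ⟨f⟩ := h
  have hadj : ∀ i : Fin (k + 2), G.Adj (f i) (f (i + 1)) := by
    intro i
    apply f.toHom.map_adj
    rw [cycleGraph_adj]
    right
    simp
  refine ⟨f 0, f (Fin.last (k + 1)), fun i => if h : i < k + 2 then f ⟨i, h⟩ else f 0,
    ⟨?_, ?_, ?_, ?_⟩, ?_⟩
  · simp
  · simp only [show k + 1 < k + 2 by omega, dite_true]
    rfl
  · intro i hi
    have h1 : i < k + 2 := by omega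
    have h2 : i + 1 < k + 2 := by omega
    simp only [h1, h2, dite_true]
    have hv : (⟨i, h1⟩ + 1 : Fin (k + 2)) = ⟨i + 1, h2⟩ := by
      apply Fin.ext
      rw [Fin.val_add_one_of_lt (by rw [Fin.lt_def]; exact hi)]
    rw [← hv]
    exact hadj _
  · intro i j hi hj hij
    have h1 : i < k + 2 := by omega
    have h2 : j < k + 2 := by omega
    simp only [h1, h2, dite_true] at hij
    have := f.injective hij
    exact congrArg Fin.val this
  · have := hadj (Fin.last (k + 1))
    rw [Fin.last_add_one] at this
    exact this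

/-- Absence of a cycle of a given length, from a search. -/
theorem no_cycle {n : ℕ} {G : SimpleGraph (Fin n)} (adj : Fin n → Fin n → Bool)
    (hadj : ∀ a b, G.Adj a b ↔ adj a b = true) (k : ℕ)
    (h : ∀ x y : Fin n, adj y x = true → ext adj (k + 1) x y [x] = false) :
    ¬ cycleGraph (k + 2) ⊑ G := by
  intro hc
  obtain ⟨x, y, p, hp, hyx⟩ := path_of_cycle hc
  have h1 : ext adj (k + 1) x y [x] = true := by
    apply ext_complete adj (k + 1) x y [x] p
    · exact ⟨hp.start, hp.stop, fun i hi => (hadj _ _).1 (hp.adj i hi), hp.inj⟩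
    · intro i hi hik
      rw [List.mem_singleton, ← hp.start]
      intro h
      have := hp.inj i 0 (by omega) (by omega) h
      omega
  rw [h x y ((hadj _ _).1 hyx)] at h1
  exact Bool.false_ne_true h1

/-- Adding an edge between the ends of a path creates a cycle. -/
theorem cycle_of_ext {n : ℕ} {G G' : SimpleGraph (Fin n)} (adj : Fin n → Fin n → Bool)
    (hadj : ∀ a b, G.Adj a b ↔ adj a b = true) (k : ℕ) {x y : Fin n} (hG : G ≤ G')
    (hxy : G'.Adj y x) (h : ext adj (k + 1) x y [x] = true) : cycleGraph (k + 2) ⊑ G' := by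
  obtain ⟨p, hp, _⟩ := ext_sound adj (k + 1) x y [x] (by simp) h
  exact cycle_of_path ⟨hp.start, hp.stop, fun i hi => hG ((hadj _ _).2 (hp.adj i hi)), hp.inj⟩ hxy

/-- A cycle is not longer than the number of vertices. -/
theorem no_long_cycle {n : ℕ} {G : SimpleGraph (Fin n)} {r : ℕ} (h : n < r) :
    ¬ cycleGraph r ⊑ G := by
  rintro ⟨f⟩
  have := Fintype.card_le_of_injective f f.injective
  simp at this
  omega

end Q114
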