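import Mathlib
import Pool.Agent.Q114.CycleSearch

/-!
# Saturation for families of cycles: theta graphs and a lower bound

* `Q114.theta m b`: two hub vertices joined by `m` internally disjoint paths with `b` inner
  vertices (`b + 1` edges) each.  Every cycle in it has length at least `2 (b + 1)`, and any two
  vertices lie on a common cycle of length `2 (b + 1)`.
* Consequently `Q114.sat_theta`: the saturation number for the cycles with lengths in
  `[s, 2 b + 1]` on `2 + m b` vertices is at most `m (b + 1)`.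
-/

namespace Q114

open SimpleGraph

/-- `G` is saturated for the family of all cycles `C_r` with `r ∈ I`: `G` has no subgraph
isomorphic to such a cycle, and joining any two distinct non-adjacent vertices by an edge creates
one.  (`cycleGraph r ⊑ G` is Mathlib's relation saying that `G` has a subgraph isomorphic to the
cycle graph `C_r`.) -/
def IsSaturated {V : Type} (I : Set ℕ) (G : SimpleGraph V) : Prop :=
  (∀ r ∈ I, ¬ cycleGraph r ⊑ G) ∧
    ∀ x y : V, x ≠ y → ¬ G.Adj x y → ∃ r ∈ I, cycleGraph r ⊑ (G ⊔ edge x y)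

/-- The saturation number: the least number of edges of a saturated graph with `n` vertices. -/
noncomputable def sat (n : ℕ) (I : Set ℕ) : ℕ :=
  sInf {m : ℕ | ∃ (V : Type) (_ : Finite V) (G : SimpleGraph V),
    Nat.card V = n ∧ IsSaturated I G ∧ G.edgeSet.ncard = m}

/-! ## Theta graphs -/

/-- Level of a vertex: its distance from the first hub along its path. -/
def lvl {m b : ℕ} : Bool ⊕ (Fin m × Fin b) → ℕ
  | Sum.inl false => 0
  | Sum.inl true => b + 1
  | Sum.inr (_, j) => j.1 + 1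

/-- Two vertices lie on a common path. -/
def same {m b : ℕ} : Bool ⊕ (Fin m × Fin b) → Bool ⊕ (Fin m × Fin b) → Prop
  | Sum.inr (i, _), Sum.inr (i', _) => i = i'
  | _, _ => True

lemma lvl_false {m b : ℕ} : lvl (Sum.inl false : Bool ⊕ (Fin m × Fin b)) = 0 := rfl

lemma lvl_true {m b : ℕ} : lvl (Sum.inl true : Bool ⊕ (Fin m × Fin b)) = b + 1 := rfl

lemma lvl_inr {m b : ℕ} (i : Fin m) (j : Fin b) :
    lvl (Sum.inr (i, j) : Bool ⊕ (Fin m × Fin b)) = j.1 + 1 := rfl

lemma same_inr {m b : ℕ} (i i' : Fin m) (j j' : Fin b) :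
    same (Sum.inr (i, j) : Bool ⊕ (Fin m × Fin b)) (Sum.inr (i', j')) ↔ i = i' := Iff.rfl

lemma same_symm {m b : ℕ} {x y : Bool ⊕ (Fin m × Fin b)} (h : same x y) : same y x := by
  rcases x with _ | ⟨i, j⟩ <;> rcases y with _ | ⟨i', j'⟩ <;> simp_all [same]

/-- The generalized theta graph: two hubs joined by `m` paths with `b` inner vertices each. -/
def theta (m b : ℕ) : SimpleGraph (Bool ⊕ (Fin m × Fin b)) where
  Adj x y := (lvl x + 1 = lvl y ∨ lvl y + 1 = lvl x) ∧ same x y
  symm := ⟨fun _ _ h => ⟨h.1.symm, same_symm h.2⟩⟩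
  loopless := ⟨fun x h => by have := h.1; omega⟩

lemma lvl_le {m b : ℕ} (x : Bool ⊕ (Fin m × Fin b)) : lvl x ≤ b + 1 := by
  rcases x with (_ | _) | ⟨i, j⟩
  · simp [lvl]
  · simp [lvl]
  · have := j.2
    simp only [lvl]
    omega

lemma up_unique {m b : ℕ} {x y z : Bool ⊕ (Fin m × Fin b)} (hx : x ≠ Sum.inl false)
    (hy : (theta m b).Adj x y) (hz : (theta m b).Adj x z) (hxy : lvl x ≤ lvl y)
    (hxz : lvl x ≤ lvl z) : y = z := by
  obtain ⟨hy1, hy2⟩ := hy
  obtain ⟨hz1, hz2⟩ := hz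
  have ey : lvl x + 1 = lvl y := by omega
  have ez : lvl x + 1 = lvl z := by omega
  clear hy1 hz1 hxy hxz
  rcases x with (_ | _) | ⟨i, j⟩
  · exact absurd rfl hx
  · have := lvl_le y
    rw [lvl_true] at ey
    omega
  · rcases y with (_ | _) | ⟨i', j'⟩ <;> rcases z with (_ | _) | ⟨i'', j''⟩ <;>
      simp only [lvl_false, lvl_true, lvl_inr, same_inr] at ey ez hy2 hz2
    · omega
    · omega
    · omega
    · omega
    · rfl
    · exfalso; have := j''.2; omega
    · omega
    · exfalso; have := j'.2; omega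
    · subst hy2
      subst hz2
      have : j' = j'' := Fin.ext (by omega)
      rw [this]

lemma down_unique {m b : ℕ} {x y z : Bool ⊕ (Fin m × Fin b)} (hx : x ≠ Sum.inl true)
    (hy : (theta m b).Adj x y) (hz : (theta m b).Adj x z) (hxy : lvl y ≤ lvl x)
    (hxz : lvl z ≤ lvl x) : y = z := by
  obtain ⟨hy1, hy2⟩ := hy
  obtain ⟨hz1, hz2⟩ := hz
  have ey : lvl y + 1 = lvl x := by omega
  have ez : lvl z + 1 = lvl x := by omega
  clear hy1 hz1 hxy hxz
  rcases x with (_ | _) | ⟨i, j⟩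
  · rw [lvl_false] at ey
    omega
  · exact absurd rfl hx
  · have hj := j.2
    rcases y with (_ | _) | ⟨i', j'⟩ <;> rcases z with (_ | _) | ⟨i'', j''⟩ <;>
      simp only [lvl_false, lvl_true, lvl_inr, same_inr] at ey ez hy2 hz2
    · rfl
    · omega
    · omega
    · omega
    · omega
    · omega
    · omega
    · omega
    · subst hy2
      subst hz2
      have : j' = j'' := Fin.ext (by omega)
      rw [this]

/-- Every cycle in a theta graph has length at least `2 (b + 1)`. -/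
theorem theta_cycle {m b k : ℕ} (h : cycleGraph (k + 3) ⊑ theta m b) :
    2 * (b + 1) ≤ k + 3 := by
  obtain ⟨f⟩ := h
  have hadj : ∀ i : Fin (k + 3), (theta m b).Adj (f i) (f (i + 1)) := by
    intro i
    apply f.toHom.map_adj
    rw [cycleGraph_adj]
    right
    simp
  have hadj' : ∀ i : Fin (k + 3), (theta m b).Adj (f i) (f (i - 1)) := by
    intro i
    have := (hadj (i - 1)).symm
    rwa [sub_add_cancel] at this
  have hne : ∀ i : Fin (k + 3), f (i + 1) ≠ f (i - 1) := by
    intro i h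
    have h1 := f.injective h
    have h2 : (1 : Fin (k + 3)) + 1 = 0 := by
      have h3 : i + 1 + 1 = i := by
        rw [h1]; exact sub_add_cancel i 1
      rw [add_assoc] at h3
      exact add_eq_left.1 h3
    have h3 := congrArg Fin.val h2
    have h4 : (1 : Fin (k + 3)).1 = 1 := rfl
    rw [Fin.val_add_one_of_lt (by rw [Fin.lt_def, h4]; show 1 < k + 2; omega)] at h3
    simp at h3
  -- the lowest vertex
  obtain ⟨i0, hi0⟩ := Finite.exists_min (fun i => lvl (f i))
  obtain ⟨i1, hi1⟩ := Finite.exists_max (fun i => lvl (f i))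
  have e0 : f i0 = Sum.inl false := by
    by_contra hc
    exact hne i0 (up_unique hc (hadj i0) (hadj' i0) (hi0 _) (hi0 _))
  have e1 : f i1 = Sum.inl true := by
    by_contra hc
    exact hne i1 (down_unique hc (hadj i1) (hadj' i1) (hi1 _) (hi1 _))
  -- levels change by at most one
  let g : ℕ → ℤ := fun t => if h : t < k + 3 then (lvl (f ⟨t, h⟩) : ℤ) else 0
  have hg : ∀ t (h : t < k + 3), g t = (lvl (f ⟨t, h⟩) : ℤ) := by
    intro t h
    simp only [g, h, dite_true]
  have step : ∀ t, t + 1 < k + 3 → |g (t + 1) - g t| ≤ 1 := by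
    intro t ht
    rw [hg t (by omega), hg (t + 1) ht]
    have hv : (⟨t, by omega⟩ + 1 : Fin (k + 3)) = ⟨t + 1, ht⟩ := by
      apply Fin.ext
      rw [Fin.val_add_one_of_lt (by rw [Fin.lt_def]; show t < k + 2; omega)]
    have := (hadj ⟨t, by omega⟩).1
    rw [hv] at this
    rw [abs_le]
    omega
  have wrap : |g 0 - g (k + 2)| ≤ 1 := by
    rw [hg 0 (by omega), hg (k + 2) (by omega)]
    have := (hadj (Fin.last (k + 2))).1
    rw [Fin.last_add_one] at this
    rw [abs_le]
    have h1 : (⟨0, by omega⟩ : Fin (k + 3)) = 0 := rfl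
    have h2 : (⟨k + 2, by omega⟩ : Fin (k + 3)) = Fin.last (k + 2) := rfl
    rw [h1, h2]
    omega
  have lip : ∀ d t, t + d < k + 3 → |g (t + d) - g t| ≤ d := by
    intro d
    induction d with
    | zero => intro t _; simp
    | succ d ih =>
      intro t ht
      have h1 := ih t (by omega)
      have h2 := step (t + d) (by omega)
      have e : g (t + (d + 1)) - g t = (g (t + d + 1) - g (t + d)) + (g (t + d) - g t) := by
        rw [show t + (d + 1) = t + d + 1 by ring]; ring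
      rw [e]
      refine (abs_add_le _ _).trans ?_
      push_cast
      linarith
  have key : ∀ s d, s + d < k + 3 → |g (s + d) - g s| = b + 1 → 2 * (b + 1) ≤ k + 3 := by
    intro s d hs habs
    have h1 := lip d s hs
    rw [habs] at h1
    have h2 := lip (k + 2 - (s + d)) (s + d) (by omega)
    rw [show s + d + (k + 2 - (s + d)) = k + 2 by omega] at h2
    have h3 := lip s 0 (by omega)
    rw [Nat.zero_add] at h3
    have h4 : (b : ℤ) + 1 ≤ |g (k + 2) - g (s + d)| + (|g 0 - g (k + 2)| + |g s - g 0|) := by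
      rw [← habs]
      have e : g (s + d) - g s = -(g (k + 2) - g (s + d)) + (-(g 0 - g (k + 2)) +
        -(g s - g 0)) := by ring
      rw [e]
      refine (abs_add_le _ _).trans ?_
      rw [abs_neg]
      refine add_le_add_right ((abs_add_le _ _).trans ?_) _
      rw [abs_neg, abs_neg]
    have h5 : ((k + 2 - (s + d) : ℕ) : ℤ) = k + 2 - (s + d) := by omega
    rw [h5] at h2
    have : (b : ℤ) + 1 ≤ (k + 2 - (s + d)) + (1 + s) := by linarith
    omega
  have v0 : g i0.1 = 0 := by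
    rw [hg i0.1 i0.2]
    show ((lvl (f i0) : ℕ) : ℤ) = 0
    rw [e0]; rfl
  have v1 : g i1.1 = b + 1 := by
    rw [hg i1.1 i1.2]
    show ((lvl (f i1) : ℕ) : ℤ) = b + 1
    rw [e1]; simp [lvl]
  rcases le_total i0.1 i1.1 with hle | hle
  · apply key i0.1 (i1.1 - i0.1)
    · have := i1.2; omega
    · rw [show i0.1 + (i1.1 - i0.1) = i1.1 by omega, v0, v1, sub_zero]
      exact abs_of_nonneg (by positivity)
  · apply key i1.1 (i0.1 - i1.1)
    · have := i0.2; omega
    · rw [show i1.1 + (i0.1 - i1.1) = i0.1 by omega, v0, v1, zero_sub, abs_neg]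
      exact abs_of_nonneg (by positivity)

/-- The point at position `j` of path `i`. -/
def pt {m b : ℕ} (i : Fin m) (j : ℕ) : Bool ⊕ (Fin m × Fin b) :=
  if j = 0 then Sum.inl false else if h : j - 1 < b then Sum.inr (i, ⟨j - 1, h⟩)
    else Sum.inl true

lemma pt_zero {m b : ℕ} (i : Fin m) : (pt i 0 : Bool ⊕ (Fin m × Fin b)) = Sum.inl false := by
  simp [pt]

lemma pt_last {m b : ℕ} (i : Fin m) :
    (pt i (b + 1) : Bool ⊕ (Fin m × Fin b)) = Sum.inl true := by
  simp [pt]

lemma pt_mid {m b : ℕ} (i : Fin m) (j : Fin b) :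
    (pt i (j.1 + 1) : Bool ⊕ (Fin m × Fin b)) = Sum.inr (i, j) := by
  have := j.2
  simp [pt]

lemma lvl_pt {m b : ℕ} (i : Fin m) {j : ℕ} (hj : j ≤ b + 1) :
    lvl (pt i j : Bool ⊕ (Fin m × Fin b)) = j := by
  unfold pt
  split_ifs with h1 h2
  · simp [lvl, h1]
  · simp only [lvl]; omega
  · simp only [lvl]; omega

lemma same_pt {m b : ℕ} (i : Fin m) (j j' : ℕ) :
    same (pt i j : Bool ⊕ (Fin m × Fin b)) (pt i j') := by
  unfold pt
  split_ifs <;> simp [same]

lemma pt_adj {m b : ℕ} (i : Fin m) {j : ℕ} (hj : j < b + 1) :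
    (theta m b).Adj (pt i j) (pt i (j + 1)) := by
  refine ⟨Or.inl ?_, same_pt i _ _⟩
  rw [lvl_pt i (by omega), lvl_pt i (by omega)]

lemma exists_pt {m b : ℕ} (i0 : Fin m) (x : Bool ⊕ (Fin m × Fin b)) :
    ∃ i j, j ≤ b + 1 ∧ x = pt i j ∧ (x = Sum.inl false ∨ x = Sum.inl true → i = i0) := by
  rcases x with (_ | _) | ⟨i, j⟩
  · exact ⟨i0, 0, by omega, (pt_zero i0).symm, fun _ => rfl⟩
  · exact ⟨i0, b + 1, le_rfl, (pt_last i0).symm, fun _ => rfl⟩
  · refine ⟨i, j.1 + 1, by have := j.2; omega, (pt_mid i j).symm, ?_⟩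
    rintro (h | h) <;> cases h

lemma pt_lvl {m b : ℕ} (i : Fin m) (x : Bool ⊕ (Fin m × Fin b))
    (h : ∀ i' j, x = Sum.inr (i', j) → i' = i) : pt i (lvl x) = x := by
  rcases x with (_ | _) | ⟨i', j⟩
  · rw [lvl_false, pt_zero]
  · rw [lvl_true, pt_last]
  · obtain rfl := h i' j rfl
    rw [lvl_inr, pt_mid]

/-- Two vertices on a common path. -/
lemma same_iff {m b : ℕ} (i0 : Fin m) {x y : Bool ⊕ (Fin m × Fin b)} (h : same x y) :
    ∃ i, pt i (lvl x) = x ∧ pt i (lvl y) = y := by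
  rcases x with x | ⟨i, j⟩
  · rcases y with y | ⟨i', j'⟩
    · exact ⟨i0, pt_lvl i0 _ (by intro _ _ h; cases h), pt_lvl i0 _ (by intro _ _ h; cases h)⟩
    · refine ⟨i', pt_lvl i' _ (by intro _ _ h; cases h), pt_lvl i' _ ?_⟩
      intro _ _ h; cases h; rfl
  · rcases y with y | ⟨i', j'⟩
    · refine ⟨i, pt_lvl i _ ?_, pt_lvl i _ (by intro _ _ h; cases h)⟩
      intro _ _ h; cases h; rfl
    · rw [same_inr] at h
      subst h
      refine ⟨i, pt_lvl i _ ?_, pt_lvl i _ ?_⟩ <;> (intro _ _ h; cases h; rfl)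

/-- The number of edges. -/
theorem theta_edges {m b : ℕ} (i0 : Fin m) : (theta m b).edgeSet.ncard ≤ m * (b + 1) := by
  classical
  let φ : Fin m × Fin (b + 1) → Sym2 (Bool ⊕ (Fin m × Fin b)) :=
    fun p => s(pt p.1 p.2.1, pt p.1 (p.2.1 + 1))
  have hsub : (theta m b).edgeSet ⊆ Set.range φ := by
    intro e he
    induction e using Sym2.ind with
    | _ x y =>
      rw [mem_edgeSet] at he
      have key : ∀ x y : Bool ⊕ (Fin m × Fin b), (theta m b).Adj x y → lvl x + 1 = lvl y →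
          s(x, y) ∈ Set.range φ := by
        intro x y he hxy
        obtain ⟨i, h1, h2⟩ := same_iff i0 he.2
        have hy := lvl_le y
        refine ⟨(i, ⟨lvl x, by omega⟩), ?_⟩
        show s(pt i (lvl x), pt i (lvl x + 1)) = s(x, y)
        rw [h1, hxy, h2]
      rcases he.1 with h | h
      · exact key x y he h
      · rw [Sym2.eq_swap]
        exact key y x he.symm h
  calc (theta m b).edgeSet.ncard ≤ (Set.range φ).ncard :=
        Set.ncard_le_ncard hsub (Set.finite_range φ)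
    _ ≤ Nat.card (Fin m × Fin (b + 1)) := by
        rw [← Set.image_univ, ← Set.ncard_univ]
        exact Set.ncard_image_le (Set.toFinite _)
    _ = m * (b + 1) := by simp

/-- A closed cyclic parametrization through two paths. -/
def cyc {m b : ℕ} (i i' : Fin m) (t : ℕ) : Bool ⊕ (Fin m × Fin b) :=
  if t % (2 * (b + 1)) ≤ b + 1 then pt i (t % (2 * (b + 1)))
    else pt i' (2 * (b + 1) - t % (2 * (b + 1)))

lemma cyc_adj {m b : ℕ} (hb : 1 ≤ b) (i i' : Fin m) (t : ℕ) :
    (theta m b).Adj (cyc i i' t) (cyc i i' (t + 1)) := by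
  have hlt : t % (2 * (b + 1)) < 2 * (b + 1) := Nat.mod_lt _ (by omega)
  have h2 : (t + 1) % (2 * (b + 1)) =
      if t % (2 * (b + 1)) + 1 = 2 * (b + 1) then 0 else t % (2 * (b + 1)) + 1 := by
    rw [Nat.add_mod, Nat.mod_eq_of_lt (show 1 < 2 * (b + 1) by omega)]
    split_ifs with h
    · rw [h, Nat.mod_self]
    · exact Nat.mod_eq_of_lt (by omega)
  unfold cyc
  rw [h2]
  generalize t % (2 * (b + 1)) = u at *
  by_cases hu : u + 1 = 2 * (b + 1)
  · rw [if_neg (by omega : ¬ u ≤ b + 1), if_pos hu, if_pos (by omega), pt_zero i, ← pt_zero i']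
    have := (pt_adj (b := b) i' (j := 0) (by omega)).symm
    rwa [show 0 + 1 = 2 * (b + 1) - u by omega] at this
  · rw [if_neg hu]
    by_cases h1 : u + 1 ≤ b + 1
    · rw [if_pos (by omega), if_pos h1]
      exact pt_adj i (by omega)
    · rw [if_neg h1]
      by_cases h3 : u ≤ b + 1
      · obtain rfl : u = b + 1 := by omega
        rw [if_pos h3, pt_last i, ← pt_last i']
        have := (pt_adj (b := b) i' (j := 2 * (b + 1) - (b + 1 + 1)) (by omega)).symm
        rwa [show 2 * (b + 1) - (b + 1 + 1) + 1 = b + 1 by omega] at this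
      · rw [if_neg h3]
        have := (pt_adj (b := b) i' (j := 2 * (b + 1) - (u + 1)) (by omega)).symm
        rwa [show 2 * (b + 1) - (u + 1) + 1 = 2 * (b + 1) - u by omega] at this

lemma pt_inj {m b : ℕ} {i i' : Fin m} {j j' : ℕ} (hj : j ≤ b + 1) (hj' : j' ≤ b + 1)
    (h : (pt i j : Bool ⊕ (Fin m × Fin b)) = pt i' j') :
    j = j' ∧ (1 ≤ j → j ≤ b → i = i') := by
  have h1 : j = j' := by
    have := congrArg lvl h
    rwa [lvl_pt i hj, lvl_pt i' hj'] at this
  refine ⟨h1, ?_⟩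
  subst h1
  intro h2 h3
  have e1 := pt_mid (b := b) i ⟨j - 1, by omega⟩
  have e2 := pt_mid (b := b) i' ⟨j - 1, by omega⟩
  simp only [show j - 1 + 1 = j by omega] at e1 e2
  rw [e1, e2] at h
  cases h
  rfl

lemma cyc_inj {m b : ℕ} {i i' : Fin m} (hii : i ≠ i') {s t : ℕ}
    (h : (cyc i i' s : Bool ⊕ (Fin m × Fin b)) = cyc i i' t) :
    s % (2 * (b + 1)) = t % (2 * (b + 1)) := by
  have hs : s % (2 * (b + 1)) < 2 * (b + 1) := Nat.mod_lt _ (by omega)
  have ht : t % (2 * (b + 1)) < 2 * (b + 1) := Nat.mod_lt _ (by omega)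
  unfold cyc at h
  generalize s % (2 * (b + 1)) = u at *
  generalize t % (2 * (b + 1)) = v at *
  split_ifs at h with h1 h2 h2
  · exact (pt_inj h1 h2 h).1
  · obtain ⟨h3, h4⟩ := pt_inj h1 (by omega) h
    exact absurd (h4 (by omega) (by omega)) hii
  · obtain ⟨h3, h4⟩ := pt_inj (by omega) h2 h
    exact absurd (h4 (by omega) (by omega)).symm hii
  · have := (pt_inj (by omega) (by omega) h).1
    omega

/-- Along the cyclic parametrization there is a path of every length below `2 (b + 1)`. -/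
lemma cyc_path {m b : ℕ} (hb : 1 ≤ b) {i i' : Fin m} (hii : i ≠ i') (s k : ℕ)
    (hk : k < 2 * (b + 1)) :
    IsPathFn (theta m b).Adj k (cyc i i' s) (cyc i i' (s + k)) (fun t => cyc i i' (s + t)) := by
  refine ⟨rfl, rfl, fun t _ => cyc_adj hb i i' (s + t), ?_⟩
  intro t t' ht ht' h
  have := cyc_inj hii h
  have h2 : t ≡ t' [MOD 2 * (b + 1)] := Nat.ModEq.add_left_cancel' s this
  have := Nat.ModEq.eq_of_lt_of_lt h2 (by omega) (by omega)
  exact this

lemma cyc_period {m b : ℕ} (i i' : Fin m) (t : ℕ) :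
    (cyc i i' (t + 2 * (b + 1)) : Bool ⊕ (Fin m × Fin b)) = cyc i i' t := by
  unfold cyc
  rw [Nat.add_mod_right]

lemma cyc_left {m b : ℕ} (i i' : Fin m) {j : ℕ} (hj : j ≤ b + 1) :
    (cyc i i' j : Bool ⊕ (Fin m × Fin b)) = pt i j := by
  unfold cyc
  rw [Nat.mod_eq_of_lt (by omega), if_pos hj]

lemma cyc_right {m b : ℕ} (i i' : Fin m) {j : ℕ} (hj : j ≤ b + 1) :
    (cyc i i' (2 * (b + 1) - j) : Bool ⊕ (Fin m × Fin b)) = pt i' j := by
  unfold cyc
  by_cases h0 : j = 0
  · subst h0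
    simp [pt_zero]
  · rw [Nat.mod_eq_of_lt (by omega)]
    by_cases h1 : j = b + 1
    · subst h1
      rw [if_pos (by omega), show 2 * (b + 1) - (b + 1) = b + 1 by omega, pt_last, pt_last]
    · rw [if_neg (by omega), show 2 * (b + 1) - (2 * (b + 1) - j) = j by omega]

/-- Any two distinct vertices lie on a common cycle of length `2 (b + 1)`. -/
theorem theta_common {m b : ℕ} (hm : 2 ≤ m) (x y : Bool ⊕ (Fin m × Fin b)) (hxy : x ≠ y) :
    ∃ (i i' : Fin m) (s d : ℕ), i ≠ i' ∧ 1 ≤ d ∧ d < 2 * (b + 1) ∧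
      cyc i i' s = x ∧ cyc i i' (s + d) = y := by
  have other : ∀ i : Fin m, ∃ i' : Fin m, i ≠ i' := by
    intro i
    by_cases h : i.1 = 0
    · exact ⟨⟨1, by omega⟩, fun hc => by rw [hc] at h; simp at h⟩
    · exact ⟨⟨0, by omega⟩, fun hc => by rw [hc] at h; simp at h⟩
  have i0 : Fin m := ⟨0, by omega⟩
  have hx := lvl_le x
  have hy := lvl_le y
  -- both on the path `i`
  have case1 : ∀ i, pt i (lvl x) = x → pt i (lvl y) = y → ∃ (i i' : Fin m) (s d : ℕ),
      i ≠ i' ∧ 1 ≤ d ∧ d < 2 * (b + 1) ∧ cyc i i' s = x ∧ cyc i i' (s + d) = y := by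
    intro i h1 h2
    obtain ⟨i', hi'⟩ := other i
    have hne : lvl x ≠ lvl y := by
      intro h
      rw [h, h2] at h1
      exact hxy h1.symm
    rcases Nat.lt_or_gt_of_ne hne with h | h
    · refine ⟨i, i', lvl x, lvl y - lvl x, hi', by omega, by omega, ?_, ?_⟩
      · rw [cyc_left _ _ hx, h1]
      · rw [show lvl x + (lvl y - lvl x) = lvl y by omega, cyc_left _ _ hy, h2]
    · refine ⟨i, i', lvl x, 2 * (b + 1) - (lvl x - lvl y), hi', by omega, by omega, ?_, ?_⟩
      · rw [cyc_left _ _ hx, h1]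
      · rw [show lvl x + (2 * (b + 1) - (lvl x - lvl y)) = lvl y + 2 * (b + 1) by omega,
          cyc_period, cyc_left _ _ hy, h2]
  by_cases hs : same x y
  · obtain ⟨i, h1, h2⟩ := same_iff i0 hs
    exact case1 i h1 h2
  · rcases x with x | ⟨i, j⟩
    · exact absurd (by rcases y with y | y <;> trivial) hs
    · rcases y with y | ⟨i', j'⟩
      · exact absurd trivial hs
      · rw [same_inr] at hs
        rw [lvl_inr] at hx hy
        refine ⟨i, i', j.1 + 1, 2 * (b + 1) - (j'.1 + 1) - (j.1 + 1), hs, by omega, by omega,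
          ?_, ?_⟩
        · rw [cyc_left _ _ hx, pt_mid]
        · rw [show j.1 + 1 + (2 * (b + 1) - (j'.1 + 1) - (j.1 + 1)) =
            2 * (b + 1) - (j'.1 + 1) by omega, cyc_right _ _ hy, pt_mid]

/-- The theta graph is saturated for the cycles with lengths from `s` to `2 b + 1`. -/
theorem theta_saturated {m b s : ℕ} (hm : 2 ≤ m) (hb : 1 ≤ b) (hs : 4 ≤ s) (hsb : s ≤ b + 2) :
    IsSaturated (Set.Icc s (2 * b + 1)) (theta m b) := by
  refine ⟨?_, ?_⟩
  · intro r hr hc
    obtain ⟨h1, h2⟩ := hr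
    obtain ⟨k, rfl⟩ : ∃ k, r = k + 3 := ⟨r - 3, by omega⟩
    have := theta_cycle hc
    omega
  · intro x y hxy hadj
    obtain ⟨i, i', t, d, hii, hd1, hd2, hx, hy⟩ := theta_common hm x y hxy
    have hle : theta m b ≤ theta m b ⊔ edge x y := le_sup_left
    have hyx : (theta m b ⊔ edge x y).Adj y x := by
      rw [sup_adj, edge_adj]
      exact Or.inr ⟨Or.inr ⟨rfl, rfl⟩, hxy.symm⟩
    have p1 := cyc_path hb hii t d hd2
    rw [hx, hy] at p1
    have p2 := cyc_path hb hii (t + d) (2 * (b + 1) - d) (by omega)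
    rw [show t + d + (2 * (b + 1) - d) = t + 2 * (b + 1) by omega, cyc_period, hx, hy] at p2
    have h1 : d ≠ 1 := by
      rintro rfl
      apply hadj
      rw [← hx, ← hy]
      exact cyc_adj hb i i' t
    have h2 : d ≠ 2 * (b + 1) - 1 := by
      intro hd
      apply hadj
      have := cyc_adj hb i i' (t + d)
      rw [show t + d + 1 = t + 2 * (b + 1) by omega, cyc_period, hx, hy] at this
      exact this.symm
    have mono : ∀ {k : ℕ} {u v : Bool ⊕ (Fin m × Fin b)} {p : ℕ → Bool ⊕ (Fin m × Fin b)},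
        IsPathFn (theta m b).Adj k u v p → IsPathFn (theta m b ⊔ edge x y).Adj k u v p :=
      fun hp => ⟨hp.start, hp.stop, fun i hi => hle (hp.adj i hi), hp.inj⟩
    by_cases hds : s ≤ d + 1
    · refine ⟨d + 1, ⟨hds, by omega⟩, ?_⟩
      obtain ⟨k, rfl⟩ : ∃ k, d = k + 1 := ⟨d - 1, by omega⟩
      exact cycle_of_path (mono p1) hyx
    · refine ⟨2 * (b + 1) - d + 1, ⟨by omega, by omega⟩, ?_⟩
      obtain ⟨k, hk⟩ : ∃ k, 2 * (b + 1) - d = k + 1 := ⟨2 * (b + 1) - d - 1, by omega⟩
      rw [hk] at p2 ⊢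
      exact cycle_of_path (mono p2) hyx.symm

/-- Upper bound for the saturation number. -/
theorem sat_theta {m b s : ℕ} (hm : 2 ≤ m) (hb : 1 ≤ b) (hs : 4 ≤ s) (hsb : s ≤ b + 2) :
    sat (2 + m * b) (Set.Icc s (2 * b + 1)) ≤ m * (b + 1) := by
  have h1 : sat (2 + m * b) (Set.Icc s (2 * b + 1)) ≤ (theta m b).edgeSet.ncard := by
    refine Nat.sInf_le ⟨Bool ⊕ (Fin m × Fin b), inferInstance, theta m b, ?_,
      theta_saturated hm hb hs hsb, rfl⟩
    simp
  exact h1.trans (theta_edges ⟨0, by omega⟩)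

end Q114
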