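import Mathlib
import Pool.Agent.Q114.ThetaSat

/-!
# A lower bound for graphs saturated for all long cycles

`Q114.lower_bound`: if `G` is saturated for the family of all cycles of length at least `s`
(`s ≥ 4`) and has `n ≥ 1` vertices and `e` edges, then
`n + 2 (s - 2) (n - 1) ≤ 2 (s - 2) e + 2`, i.e. `e ≥ n - 1 + (n - 2) / (2 (s - 2))`.
For `s = 4` this is `e ≥ 5 n / 4 - 3 / 2`.
-/

namespace Q114

open SimpleGraph

lemma IsPathFn.reverse {V : Type*} {G : SimpleGraph V} {k : ℕ} {x y : V} {p : ℕ → V}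
    (hp : IsPathFn G.Adj k x y p) : IsPathFn G.Adj k y x (fun t => p (k - t)) := by
  refine ⟨by simpa using hp.stop, by simpa using hp.start, ?_, ?_⟩
  · intro i hi
    have := hp.adj (k - (i + 1)) (by omega)
    rw [show k - (i + 1) + 1 = k - i by omega] at this
    exact this.symm
  · intro i j hi hj h
    have := hp.inj _ _ (by omega) (by omega) h
    omega

/-- A cycle, as a periodic function. -/
lemma periodic_of_cycle {V : Type*} {G : SimpleGraph V} {k : ℕ} (h : cycleGraph (k + 2) ⊑ G) :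
    ∃ c : ℕ → V, (∀ t, c (t + (k + 2)) = c t) ∧ (∀ t, G.Adj (c t) (c (t + 1))) ∧
      ∀ s t, c s = c t → s % (k + 2) = t % (k + 2) := by
  obtain ⟨f⟩ := h
  have hadj : ∀ i : Fin (k + 2), G.Adj (f i) (f (i + 1)) := by
    intro i
    apply f.toHom.map_adj
    rw [cycleGraph_adj]
    right
    simp
  refine ⟨fun t => f ⟨t % (k + 2), Nat.mod_lt _ (by omega)⟩, ?_, ?_, ?_⟩
  · intro t
    simp only [Nat.add_mod_right]
  · intro t
    have := hadj ⟨t % (k + 2), Nat.mod_lt _ (by omega)⟩
    have hv : (⟨t % (k + 2), Nat.mod_lt _ (by omega)⟩ + 1 : Fin (k + 2)) =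
        ⟨(t + 1) % (k + 2), Nat.mod_lt _ (by omega)⟩ := by
      apply Fin.ext
      rw [Fin.val_add]
      simp [Nat.add_mod]
    rw [hv] at this
    exact this
  · intro s t h
    have := f.injective h
    exact congrArg Fin.val this

/-- A cycle that appears after adding the edge `xy` gives a path from `x` to `y`. -/
lemma path_of_new {V : Type*} {G : SimpleGraph V} {x y : V} {k : ℕ}
    (hG : ¬ cycleGraph (k + 3) ⊑ G) (h : cycleGraph (k + 3) ⊑ (G ⊔ edge x y)) :
    ∃ p, IsPathFn G.Adj (k + 2) x y p := by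
  obtain ⟨c, hper, hadj, hinj⟩ := periodic_of_cycle (k := k + 1) h
  rw [show k + 1 + 2 = k + 3 by ring] at hper hinj
  have hne : ∀ t, c t ≠ c (t + 1) := fun t => (hadj t).ne
  have hedge : ∀ t, ¬ G.Adj (c t) (c (t + 1)) →
      (x = c t ∧ y = c (t + 1)) ∨ (x = c (t + 1) ∧ y = c t) := by
    intro t ht
    have := hadj t
    rw [sup_adj, edge_adj] at this
    rcases this with h1 | ⟨h1 | h1, _⟩
    · exact absurd h1 ht
    · exact Or.inl ⟨h1.1.symm, h1.2.symm⟩
    · exact Or.inr ⟨h1.2.symm, h1.1.symm⟩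
  have hinj' : ∀ s i j, i < k + 3 → j < k + 3 → c (s + i) = c (s + j) → i = j := by
    intro s i j hi hj he
    have h1 := hinj _ _ he
    have h2 : i ≡ j [MOD k + 3] := Nat.ModEq.add_left_cancel' s h1
    exact Nat.ModEq.eq_of_lt_of_lt h2 hi hj
  -- some edge of the cycle is new
  obtain ⟨t0, ht0⟩ : ∃ t, ¬ G.Adj (c t) (c (t + 1)) := by
    by_contra hcon
    push Not at hcon
    apply hG
    have hp : IsPathFn G.Adj (k + 1 + 1) (c 0) (c (k + 2)) c := by
      refine ⟨rfl, rfl, fun i _ => hcon i, ?_⟩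
      intro i j hi hj hij
      exact hinj' 0 i j (by omega) (by omega) (by simpa using hij)
    have hb : G.Adj (c (k + 2)) (c 0) := by
      have := hcon (k + 2)
      rw [show k + 2 + 1 = 0 + (k + 3) by ring, hper] at this
      exact this
    exact cycle_of_path hp hb
  have hp : IsPathFn G.Adj (k + 2) (c (t0 + 1)) (c t0) (fun t => c (t0 + 1 + t)) := by
    refine ⟨rfl, ?_, ?_, ?_⟩
    · show c (t0 + 1 + (k + 2)) = c t0
      rw [show t0 + 1 + (k + 2) = t0 + (k + 3) by ring, hper]
    · intro i hi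
      show G.Adj (c (t0 + 1 + i)) (c (t0 + 1 + i + 1))
      by_contra hcon
      have key : c (t0 + 1 + i) = c t0 ∨ (c (t0 + 1 + i) = c (t0 + 1) ∧
          c (t0 + 1 + i + 1) = c t0) := by
        rcases hedge _ hcon with ⟨h1, h2⟩ | ⟨h1, h2⟩ <;>
          rcases hedge _ ht0 with ⟨h3, h4⟩ | ⟨h3, h4⟩
        · left; rw [← h1, ← h3]
        · right; exact ⟨by rw [← h1, ← h3], by rw [← h2, ← h4]⟩
        · right; exact ⟨by rw [← h2, ← h4], by rw [← h1, ← h3]⟩
        · left; rw [← h2, ← h4]
      rcases key with h1 | ⟨h1, h2⟩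
      · have := hinj' t0 (1 + i) 0 (by omega) (by omega) (by
          rw [show t0 + (1 + i) = t0 + 1 + i by ring]; simpa using h1)
        omega
      · have h3 := hinj' (t0 + 1) i 0 (by omega) (by omega) (by simpa using h1)
        subst h3
        have := hinj' t0 2 0 (by omega) (by omega) (by
          simpa [show t0 + 2 = t0 + 1 + 0 + 1 by ring] using h2)
        omega
    · intro i j hi hj hij
      exact hinj' (t0 + 1) i j (by omega) (by omega) hij
  rcases hedge _ ht0 with ⟨h1, h2⟩ | ⟨h1, h2⟩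
  · rw [h1, h2]; exact ⟨_, hp.reverse⟩
  · rw [h1, h2]; exact ⟨_, hp⟩

/-- A path gives a walk avoiding an edge. -/
lemma reach_of_path {V : Type*} {G : SimpleGraph V} {k : ℕ} {x y : V} {p : ℕ → V}
    (hp : IsPathFn G.Adj k x y p) : G.Reachable x y := by
  have : ∀ t, t ≤ k → G.Reachable x (p t) := by
    intro t
    induction t with
    | zero => intro _; rw [hp.start]
    | succ t ih =>
      intro ht
      exact (ih (by omega)).trans (hp.adj t (by omega)).reachable
  have h := this k le_rfl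
  rwa [hp.stop] at h

section

set_option linter.unusedSectionVars false

variable {V : Type} [Finite V] {G : SimpleGraph V} {s : ℕ}

/-- The two consequences of saturation that we use. -/
lemma path_of_saturated (hG : IsSaturated (Set.Ici s) G) (hs : 4 ≤ s) {x y : V} (hxy : x ≠ y)
    (hn : ¬ G.Adj x y) : ∃ k p, s ≤ k + 1 ∧ IsPathFn G.Adj k x y p := by
  obtain ⟨r, hr, hc⟩ := hG.2 x y hxy hn
  have hr' : s ≤ r := hr
  obtain ⟨k, rfl⟩ : ∃ k, r = k + 3 := ⟨r - 3, by omega⟩
  obtain ⟨p, hp⟩ := path_of_new (hG.1 _ hr) hc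
  exact ⟨k + 2, p, hr', hp⟩

lemma connected_of_saturated [Nonempty V] (hG : IsSaturated (Set.Ici s) G) (hs : 4 ≤ s) :
    G.Connected := by
  refine ⟨fun x y => ?_⟩
  by_cases hxy : x = y
  · rw [hxy]
  · by_cases hn : G.Adj x y
    · exact hn.reachable
    · obtain ⟨k, p, _, hp⟩ := path_of_saturated hG hs hxy hn
      exact reach_of_path hp

/-- The graph formed by the bridges. -/
def bridges (G : SimpleGraph V) : SimpleGraph V where
  Adj x y := G.Adj x y ∧ G.IsBridge s(x, y)
  symm := ⟨fun x y h => ⟨h.1.symm, by rw [Sym2.eq_swap]; exact h.2⟩⟩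
  loopless := ⟨fun x h => G.loopless.irrefl x h.1⟩

/-- A path from `x` uses a bridge at `x` whose other side contains the end. -/
lemma bridge_first {x y z : V} {k : ℕ} {p : ℕ → V} (hb : G.IsBridge s(x, y))
    (hzy : G.Adj z y) (hzx : z ≠ x) (hp : IsPathFn G.Adj k x z p) : p 1 = y ∧ 1 ≤ k := by
  rw [isBridge_iff] at hb
  have hex : ∃ i, i < k ∧ s(p i, p (i + 1)) = s(x, y) := by
    by_contra hcon
    push Not at hcon
    apply hb
    have h1 : (G.deleteEdges {s(x, y)}).Reachable x z := by
      refine reach_of_path (k := k) (p := p) ⟨hp.start, hp.stop, ?_, hp.inj⟩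
      intro i hi
      rw [deleteEdges_adj]
      exact ⟨hp.adj i hi, hcon i hi⟩
    refine h1.trans (Adj.reachable ?_)
    rw [deleteEdges_adj]
    refine ⟨hzy, ?_⟩
    intro hc
    rw [Set.mem_singleton_iff, Sym2.eq_iff] at hc
    rcases hc with ⟨h, _⟩ | ⟨h, h'⟩
    · exact hzx h
    · exact hzx (h.trans h')
  obtain ⟨i, hi, he⟩ := hex
  rw [Sym2.eq_iff] at he
  rcases he with ⟨h1, h2⟩ | ⟨h1, h2⟩
  · have h0 := hp.inj i 0 (by omega) (by omega) (by rw [h1, hp.start])
    subst h0
    exact ⟨h2, by omega⟩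
  · have h0 := hp.inj (i + 1) 0 (by omega) (by omega) (by rw [h2, hp.start])
    omega

/-- The bridges form a matching. -/
lemma bridges_matching (hG : IsSaturated (Set.Ici s) G) (hs : 4 ≤ s) {x y z : V}
    (hx : (bridges G).Adj y x) (hz : (bridges G).Adj y z) : x = z := by
  by_contra hxz
  have hbx : G.IsBridge s(x, y) := by rw [Sym2.eq_swap]; exact hx.2
  have hbz : G.IsBridge s(z, y) := by rw [Sym2.eq_swap]; exact hz.2
  have hn : ¬ G.Adj x z := by
    intro h
    rw [isBridge_iff] at hbx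
    apply hbx
    have e1 : (G.deleteEdges {s(x, y)}).Adj x z := by
      rw [deleteEdges_adj]
      refine ⟨h, ?_⟩
      intro hc
      rw [Set.mem_singleton_iff, Sym2.eq_iff] at hc
      rcases hc with ⟨_, h'⟩ | ⟨h', _⟩
      · exact hz.1.ne h'.symm
      · exact hx.1.ne h'.symm
    have e2 : (G.deleteEdges {s(x, y)}).Adj z y := by
      rw [deleteEdges_adj]
      refine ⟨hz.1.symm, ?_⟩
      intro hc
      rw [Set.mem_singleton_iff, Sym2.eq_iff] at hc
      rcases hc with ⟨h', _⟩ | ⟨h', h''⟩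
      · exact hxz h'.symm
      · exact hxz (h''.symm.trans h'.symm)
    exact e1.reachable.trans e2.reachable
  obtain ⟨k, p, hk, hp⟩ := path_of_saturated hG hs hxz hn
  obtain ⟨h1, _⟩ := bridge_first hbx hz.1.symm (fun h => hxz h.symm) hp
  obtain ⟨h2, _⟩ := bridge_first hbz hx.1.symm hxz hp.reverse
  have := hp.inj 1 (k - 1) (by omega) (by omega) (by rw [h1, h2])
  omega

/-- Every edge that is not a bridge lies on the fundamental cycle of an edge outside the
spanning tree `T`. -/
lemma exists_fundamental {T : SimpleGraph V} (hT : T.IsTree) {u v : V} (huv : G.Adj u v) (hnb : ¬ G.IsBridge s(u, v)) :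
    ∃ a b, G.Adj a b ∧ ¬ T.Adj a b ∧ (s(u, v) = s(a, b) ∨
      ∀ w : T.Walk a b, s(u, v) ∈ w.edges) := by
  by_cases hTuv : T.Adj u v
  · -- a tree edge
    rw [isBridge_iff, not_not] at hnb
    have hTb : ¬ (T.deleteEdges {s(u, v)}).Reachable u v := by
      have := isAcyclic_iff_forall_adj_isBridge.1 hT.isAcyclic hTuv
      rwa [isBridge_iff] at this
    obtain ⟨w⟩ := hnb
    -- find the crossing edge
    have key : ∀ {a b : V} (w : (G.deleteEdges {s(u, v)}).Walk a b),
        (T.deleteEdges {s(u, v)}).Reachable u a → ¬ (T.deleteEdges {s(u, v)}).Reachable u b →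
        ∃ c d, (G.deleteEdges {s(u, v)}).Adj c d ∧ (T.deleteEdges {s(u, v)}).Reachable u c ∧
          ¬ (T.deleteEdges {s(u, v)}).Reachable u d := by
      intro a b w
      induction w with
      | nil => intro h1 h2; exact absurd h1 h2
      | @cons a c b hac w ih =>
        intro h1 h2
        by_cases h3 : (T.deleteEdges {s(u, v)}).Reachable u c
        · exact ih h3 h2
        · exact ⟨a, c, hac, h1, h3⟩
    obtain ⟨c, d, hcd, hc, hd⟩ := key w (Reachable.refl u) hTb
    rw [deleteEdges_adj] at hcd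
    have hncd : ¬ (T.deleteEdges {s(u, v)}).Reachable c d := fun h => hd (hc.trans h)
    refine ⟨c, d, hcd.1, ?_, Or.inr ?_⟩
    · intro hT'
      apply hncd
      apply Adj.reachable
      rw [deleteEdges_adj]
      exact ⟨hT', hcd.2⟩
    · intro w
      by_contra hw
      apply hncd
      rw [reachable_deleteEdges_iff_exists_walk]
      exact ⟨w, hw⟩
  · exact ⟨u, v, huv, hTuv, Or.inl rfl⟩

/-- A path (as a walk) in a subgraph gives a path function. -/
lemma pathFn_of_walk {T : SimpleGraph V} (hle : T ≤ G) {a b : V} {w : T.Walk a b}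
    (hw : w.IsPath) : IsPathFn G.Adj w.length a b w.getVert := by
  refine ⟨w.getVert_zero, w.getVert_length, ?_, ?_⟩
  · intro i hi
    exact hle (w.adj_getVert_succ hi)
  · intro i j hi hj h
    exact hw.getVert_injOn hi hj h

/-- **Lower bound.** -/
theorem lower_bound [Nonempty V] (hG : IsSaturated (Set.Ici s) G) (hs : 4 ≤ s) :
    Nat.card V + 2 * (s - 2) * (Nat.card V - 1) ≤ 2 * (s - 2) * G.edgeSet.ncard + 2 := by
  classical
  have : Fintype V := Fintype.ofFinite V
  have hconn := connected_of_saturated hG hs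
  obtain ⟨T, hle, hT⟩ := hconn.exists_isTree_le
  -- cardinalities
  have hTc : T.edgeFinset.card + 1 = Fintype.card V := hT.card_edgeFinset
  have hEc : G.edgeSet.ncard = G.edgeFinset.card := by
    rw [← coe_edgeFinset, Set.ncard_coe_finset]
  set E := G.edgeFinset with hE
  set H := (bridges G).edgeFinset with hH
  have hHsub : H ⊆ E := by
    apply edgeFinset_mono
    intro x y h
    exact h.1
  have hTsub : T.edgeFinset ⊆ E := edgeFinset_mono hle
  -- bridges
  have hbr : 2 * H.card ≤ Fintype.card V := by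
    rw [hH, ← sum_degrees_eq_twice_card_edges]
    calc ∑ v, (bridges G).degree v ≤ ∑ _v : V, 1 := by
          apply Finset.sum_le_sum
          intro v _
          rw [← card_neighborFinset_eq_degree, Finset.card_le_one]
          intro a ha b hb
          rw [mem_neighborFinset] at ha hb
          exact bridges_matching hG hs ha hb
      _ = Fintype.card V := by simp
  -- fundamental cycles
  have hfun : ∀ e ∈ E \ T.edgeFinset, ∃ N : Finset (Sym2 V), N.card ≤ s - 1 ∧
      ∀ u v, (∃ a b, e = s(a, b) ∧ (s(u, v) = s(a, b) ∨ ∀ w : T.Walk a b, s(u, v) ∈ w.edges)) →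
        s(u, v) ∈ N := by
    intro e he
    induction e using Sym2.ind with
    | _ a b =>
      rw [Finset.mem_sdiff, mem_edgeFinset, mem_edgeFinset, mem_edgeSet, mem_edgeSet] at he
      obtain ⟨w, hw, -⟩ := hT.existsUnique_path a b
      have hlen : w.length ≤ s - 2 := by
        by_contra hcon
        have hp := pathFn_of_walk hle hw
        obtain ⟨k, hk⟩ : ∃ k, w.length = k + 1 := ⟨w.length - 1, by omega⟩
        rw [hk] at hp
        exact hG.1 (k + 2) (show s ≤ k + 2 by omega) (cycle_of_path hp he.1.symm)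
      refine ⟨insert s(a, b) w.edges.toFinset, ?_, ?_⟩
      · calc (insert s(a, b) w.edges.toFinset).card ≤ w.edges.toFinset.card + 1 :=
              Finset.card_insert_le _ _
          _ ≤ w.edges.length + 1 := by
              have := List.toFinset_card_le w.edges
              omega
          _ ≤ s - 1 := by
              rw [Walk.length_edges]
              omega
      · rintro u v ⟨a', b', hab, h⟩
        rw [Finset.mem_insert, List.mem_toFinset]
        rw [Sym2.eq_iff] at hab
        rcases hab with ⟨rfl, rfl⟩ | ⟨rfl, rfl⟩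
        · rcases h with h | h
          · exact Or.inl h
          · exact Or.inr (h w)
        · rcases h with h | h
          · left; rw [h, Sym2.eq_swap]
          · right
            have := h w.reverse
            rwa [Walk.edges_reverse, List.mem_reverse] at this
  choose! N hN1 hN2 using hfun
  have hcover : E \ H ⊆ (E \ T.edgeFinset).biUnion N := by
    intro e he
    induction e using Sym2.ind with
    | _ u v =>
      rw [Finset.mem_sdiff, mem_edgeFinset, mem_edgeFinset, mem_edgeSet, mem_edgeSet] at he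
      have hnb : ¬ G.IsBridge s(u, v) := fun h => he.2 ⟨he.1, h⟩
      obtain ⟨a, b, hab, hTab, h⟩ := exists_fundamental hT he.1 hnb
      rw [Finset.mem_biUnion]
      refine ⟨s(a, b), ?_, hN2 _ ?_ u v ⟨a, b, rfl, h⟩⟩
      · rw [Finset.mem_sdiff, mem_edgeFinset, mem_edgeFinset, mem_edgeSet, mem_edgeSet]
        exact ⟨hab, hTab⟩
      · rw [Finset.mem_sdiff, mem_edgeFinset, mem_edgeFinset, mem_edgeSet, mem_edgeSet]
        exact ⟨hab, hTab⟩
  have hcard : (E \ H).card ≤ (E \ T.edgeFinset).card * (s - 1) :=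
    (Finset.card_le_card hcover).trans (Finset.card_biUnion_le_card_mul _ _ _ hN1)
  rw [Finset.card_sdiff_of_subset hHsub, Finset.card_sdiff_of_subset hTsub] at hcard
  have hHE := Finset.card_le_card hHsub
  have hTE := Finset.card_le_card hTsub
  rw [hEc, Nat.card_eq_fintype_card]
  obtain ⟨c, hc⟩ : ∃ c, E.card = T.edgeFinset.card + c := ⟨E.card - T.edgeFinset.card, by omega⟩
  obtain ⟨q, rfl⟩ : ∃ q, s = q + 2 := ⟨s - 2, by omega⟩
  rw [← hTc] at hbr ⊢
  rw [hc] at hcard hHE ⊢
  have e1 : T.edgeFinset.card + c - T.edgeFinset.card = c := by omega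
  have e2 : q + 2 - 1 = q + 1 := by omega
  have e3 : q + 2 - 2 = q := by omega
  have e4 : T.edgeFinset.card + 1 - 1 = T.edgeFinset.card := by omega
  rw [e1, e2] at hcard
  rw [e3, e4]
  have h5 : T.edgeFinset.card + c ≤ c * (q + 1) + H.card := by omega
  nlinarith [h5, hbr]

end

/-- Saturated graphs exist for every number of vertices (for the family of all cycles of length
at least `s ≥ 2`). -/
lemma exists_saturated (n s : ℕ) (hs : 2 ≤ s) :
    ∃ G : SimpleGraph (Fin n), IsSaturated (Set.Ici s) G := by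
  have hfin : {G : SimpleGraph (Fin n) | ∀ r ∈ Set.Ici s, ¬ cycleGraph r ⊑ G}.Finite :=
    Set.toFinite _
  have hne : {G : SimpleGraph (Fin n) | ∀ r ∈ Set.Ici s, ¬ cycleGraph r ⊑ G}.Nonempty := by
    refine ⟨⊥, ?_⟩
    intro r hr hc
    have hr' : s ≤ r := hr
    obtain ⟨k, rfl⟩ : ∃ k, r = k + 2 := ⟨r - 2, by omega⟩
    obtain ⟨x, y, p, hp, hyx⟩ := path_of_cycle hc
    exact hyx
  obtain ⟨G, hG⟩ := hfin.exists_maximal hne
  refine ⟨G, hG.prop, ?_⟩
  intro x y hxy hn
  by_contra hcon
  have hmem : G ⊔ edge x y ∈ {G : SimpleGraph (Fin n) | ∀ r ∈ Set.Ici s, ¬ cycleGraph r ⊑ G} :=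
    fun r hr hc => hcon ⟨r, hr, hc⟩
  have h1 : G ⊔ edge x y ≤ G := hG.le_of_ge hmem le_sup_left
  apply hn
  apply h1
  rw [sup_adj, edge_adj]
  exact Or.inr ⟨Or.inl ⟨rfl, rfl⟩, hxy⟩

/-- Lower bound for the saturation number. -/
theorem sat_lower {n s : ℕ} (hn : 1 ≤ n) (hs : 4 ≤ s) :
    n + 2 * (s - 2) * (n - 1) ≤ 2 * (s - 2) * sat n (Set.Ici s) + 2 := by
  have hne : {m : ℕ | ∃ (V : Type) (_ : Finite V) (G : SimpleGraph V),
      Nat.card V = n ∧ IsSaturated (Set.Ici s) G ∧ G.edgeSet.ncard = m}.Nonempty := by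
    obtain ⟨G, hG⟩ := exists_saturated n s (by omega)
    exact ⟨_, Fin n, inferInstance, G, by simp, hG, rfl⟩
  obtain ⟨V, hV, G, hc, hG, hm⟩ := Nat.sInf_mem hne
  have : Nonempty V := by
    rw [← Nat.card_pos_iff.trans (and_iff_left hV)] 
    omega
  have := lower_bound hG hs
  rw [hc, hm] at this
  exact this

end Q114
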